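import Pool.Agent.Helper92.AH.Defs

/-!
# Algebraic families of symmetric designs, module PADICK
-/

set_option autoImplicit false

namespace Pool.Agent.Helper92.AH

open MvPolynomial

/-- a sequence of integers with a `p`-adic limit (along divisibility) which is an integer -/
def padick_Gd (p : ℕ) (A : ℕ → ℤ) : Prop :=
  ∃ c : ℤ, ∀ s : ℕ, ∃ M : ℕ, 0 < M ∧ ∀ n, 0 < n → M ∣ n → (p : ℤ) ^ s ∣ A n - c

theorem padick_congr {p : ℕ} {A B : ℕ → ℤ} (h : ∀ n, 0 < n → A n = B n) (hA : padick_Gd p A) :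
    padick_Gd p B := by
  obtain ⟨c, hc⟩ := hA
  refine ⟨c, fun s => ?_⟩
  obtain ⟨M, hM, h2⟩ := hc s
  exact ⟨M, hM, fun n hn hMn => by rw [← h n hn]; exact h2 n hn hMn⟩

theorem padick_add {p : ℕ} {A B : ℕ → ℤ} (hA : padick_Gd p A) (hB : padick_Gd p B) :
    padick_Gd p (fun n => A n + B n) := by
  obtain ⟨c, hc⟩ := hA
  obtain ⟨d, hd⟩ := hB
  refine ⟨c + d, fun s => ?_⟩
  obtain ⟨M, hM, h1⟩ := hc s
  obtain ⟨M', hM', h2⟩ := hd s
  refine ⟨M * M', Nat.mul_pos hM hM', fun n hn hMn => ?_⟩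
  have := dvd_add (h1 n hn ((Nat.dvd_mul_right M M').trans hMn))
    (h2 n hn ((Nat.dvd_mul_left M' M).trans hMn))
  rw [show A n + B n - (c + d) = A n - c + (B n - d) by ring]
  exact this

theorem padick_sub {p : ℕ} {A B : ℕ → ℤ} (hA : padick_Gd p A) (hB : padick_Gd p B) :
    padick_Gd p (fun n => A n - B n) := by
  obtain ⟨c, hc⟩ := hA
  obtain ⟨d, hd⟩ := hB
  refine ⟨c - d, fun s => ?_⟩
  obtain ⟨M, hM, h1⟩ := hc s
  obtain ⟨M', hM', h2⟩ := hd s
  refine ⟨M * M', Nat.mul_pos hM hM', fun n hn hMn => ?_⟩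
  have := dvd_sub (h1 n hn ((Nat.dvd_mul_right M M').trans hMn))
    (h2 n hn ((Nat.dvd_mul_left M' M).trans hMn))
  rw [show A n - B n - (c - d) = A n - c - (B n - d) by ring]
  exact this

theorem padick_sum {p : ℕ} {α : Type} (t : Finset α) (A : α → ℕ → ℤ)
    (hA : ∀ a ∈ t, padick_Gd p (A a)) : padick_Gd p (fun n => ∑ a ∈ t, A a n) := by
  classical
  induction t using Finset.induction_on with
  | empty => exact ⟨0, fun s => ⟨1, one_pos, fun n _ _ => by simp⟩⟩
  | insert a t ha ih =>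
    refine padick_congr (fun n _ => (Finset.sum_insert ha).symm) ?_
    exact padick_add (hA a (Finset.mem_insert_self a t))
      (ih (fun b hb => hA b (Finset.mem_insert_of_mem hb)))

theorem padick_finite (F K : Type) [Field F] [Finite F] [Field K] {N : ℕ} (V : Set (Fin N → K))
    (n : ℕ) (hn : 0 < n) : (fx (Nat.card F) n V).Finite := by
  classical
  have hq : 1 < Nat.card F := Finite.one_lt_card
  have h1 : ({z : K | z ^ (Nat.card F ^ n) = z}).Finite := by
    have hne : (Polynomial.X ^ (Nat.card F ^ n) - Polynomial.X : Polynomial K) ≠ 0 :=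
      FiniteField.X_pow_card_pow_sub_X_ne_zero K hn.ne' hq
    refine ((Polynomial.X ^ (Nat.card F ^ n) - Polynomial.X : Polynomial K).roots.toFinset.finite_toSet).subset ?_
    intro z hz
    rw [Finset.mem_coe, Multiset.mem_toFinset, Polynomial.mem_roots hne]
    have hz' : z ^ (Nat.card F ^ n) = z := hz
    simp [hz']
  have h2 : (Set.pi Set.univ (fun _ : Fin N => {z : K | z ^ (Nat.card F ^ n) = z})).Finite :=
    Set.Finite.pi (fun _ => h1)
  exact h2.subset (fun x hx i _ => hx.2 i)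

theorem padick_one (hP : ST_PADIC1) (hF : ST_FIELD) (hT : ST_TRANSP)
    (p : ℕ) [Fact p.Prime] (F K : Type) [Field F] [Finite F] [CharP F p] [Field K] [IsAlgClosed K]
    [Algebra F K] (N : ℕ) (h : MvPolynomial (Fin N) F) :
    padick_Gd p (fun n => (((fx (Nat.card F) n {x : Fin N → K | aeval x h ≠ 0}).ncard : ℕ) : ℤ)) := by
  obtain ⟨c, hc⟩ := hP p F N h
  refine ⟨c, fun s => ?_⟩
  obtain ⟨M, hM, h1⟩ := hc s
  refine ⟨M, hM, fun n hn hMn => ?_⟩
  obtain ⟨E, i1, i2, i3, hr, -⟩ := hF.1 F K n hn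
  have h2 := h1 E (by rw [hr]; exact hMn)
  have h3 := (hT F K E N Unit (fun _ => h) {∅}).1
  have h4 : ∀ (L : Type) [Field L] [Algebra F L], Pts (fun _ : Unit => h) {∅} L =
      {x : Fin N → L | aeval x h ≠ 0} := by
    intro L _ _
    ext x
    simp only [Pts, Set.mem_ofPred_eq, Set.mem_singleton_iff]
    constructor
    · intro h5 h6
      have : () ∈ ({_i : Unit | aeval x h = 0} : Set Unit) := h6
      rw [h5] at this
      exact this
    · intro h5
      ext u
      simp [h5]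
  rw [h4 E, h4 K, hr] at h3
  show (p : ℤ) ^ s ∣ (((fx (Nat.card F) n {x : Fin N → K | aeval x h ≠ 0}).ncard : ℕ) : ℤ) - c
  rw [← h3]
  exact h2

theorem padick_zero (hP : ST_PADIC1) (hF : ST_FIELD) (hT : ST_TRANSP)
    (p : ℕ) [Fact p.Prime] (F K : Type) [Field F] [Finite F] [CharP F p] [Field K] [IsAlgClosed K]
    [Algebra F K] (N : ℕ) (ι : Type) (P : ι → MvPolynomial (Fin N) F) (A : Finset ι) :
    ∀ h : MvPolynomial (Fin N) F, padick_Gd p (fun n => (((fx (Nat.card F) n
      {x : Fin N → K | (∀ i ∈ A, aeval x (P i) = 0) ∧ aeval x h ≠ 0}).ncard : ℕ) : ℤ)) := by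
  classical
  induction A using Finset.induction_on with
  | empty =>
    intro h
    refine padick_congr (fun n _ => ?_) (padick_one hP hF hT p F K N h)
    simp
  | insert i A _ ih =>
    intro h
    refine padick_congr (fun n hn => ?_) (padick_sub (ih h) (ih (h * P i)))
    have hsub : fx (Nat.card F) n {x : Fin N → K | (∀ i ∈ A, aeval x (P i) = 0) ∧
        aeval x (h * P i) ≠ 0} ⊆ fx (Nat.card F) n {x : Fin N → K | (∀ i ∈ A, aeval x (P i) = 0) ∧
        aeval x h ≠ 0} := by
      rintro x ⟨⟨h1, h2⟩, h3⟩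
      refine ⟨⟨h1, fun h4 => h2 ?_⟩, h3⟩
      rw [map_mul, h4, zero_mul]
    have hd : fx (Nat.card F) n {x : Fin N → K | (∀ j ∈ insert i A, aeval x (P j) = 0) ∧
        aeval x h ≠ 0} = fx (Nat.card F) n {x : Fin N → K | (∀ i ∈ A, aeval x (P i) = 0) ∧
        aeval x h ≠ 0} \ fx (Nat.card F) n {x : Fin N → K | (∀ i ∈ A, aeval x (P i) = 0) ∧
        aeval x (h * P i) ≠ 0} := by
      ext x
      constructor
      · rintro ⟨⟨h1, h2⟩, h3⟩
        refine ⟨⟨⟨fun j hj => h1 j (Finset.mem_insert_of_mem hj), h2⟩, h3⟩, ?_⟩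
        rintro ⟨⟨_, h4⟩, _⟩
        apply h4
        rw [map_mul, h1 i (Finset.mem_insert_self i A), mul_zero]
      · rintro ⟨⟨⟨h1, h2⟩, h3⟩, h4⟩
        refine ⟨⟨fun j hj => ?_, h2⟩, h3⟩
        rcases Finset.mem_insert.1 hj with rfl | hj
        · by_contra h5
          apply h4
          refine ⟨⟨h1, ?_⟩, h3⟩
          rw [map_mul]
          exact mul_ne_zero h2 h5
        · exact h1 j hj
    have hfin := padick_finite F K {x : Fin N → K | (∀ i ∈ A, aeval x (P i) = 0) ∧
        aeval x (h * P i) ≠ 0} n hn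
    have h5 := Set.ncard_sdiff_add_ncard_of_subset hsub (padick_finite F K _ n hn)
    rw [← hd] at h5
    have h6 := congrArg (fun z : ℕ => (z : ℤ)) h5
    push_cast at h6
    linarith

theorem st_PADICK (hP : ST_PADIC1) (hF : ST_FIELD) (hT : ST_TRANSP) : ST_PADICK := by
  classical
  intro p _ F K _ _ _ _ _ _ N ι _ P T
  have hfι := Fintype.ofFinite ι
  show padick_Gd p (fun n => (((fx (Nat.card F) n (Pts P T K)).ncard : ℕ) : ℤ))
  have h1 := padick_sum (p := p) ((Finset.univ : Finset (Finset ι)).filter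
    (fun τ : Finset ι => (τ : Set ι) ∈ T)) (fun (τ : Finset ι) (n : ℕ) => (((fx (Nat.card F) n
      {x : Fin N → K | (∀ i ∈ τ, aeval x (P i) = 0) ∧
        aeval x (∏ i ∈ τᶜ, P i) ≠ 0}).ncard : ℕ) : ℤ))
    (fun τ _ => padick_zero hP hF hT p F K N ι P τ _)
  refine padick_congr (fun n hn => ?_) h1
  have hfin := padick_finite F K (Pts P T K) n hn
  rw [Set.ncard_eq_toFinset_card _ hfin]
  rw [Finset.card_eq_sum_card_fiberwise (f := fun x : Fin N → K =>
    (Finset.univ.filter (fun i => aeval x (P i) = 0) : Finset ι))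
    (t := (Finset.univ : Finset (Finset ι)).filter (fun τ : Finset ι => (τ : Set ι) ∈ T))]
  · push_cast
    refine Finset.sum_congr rfl (fun τ hτ => ?_)
    rw [Finset.mem_filter] at hτ
    have hfin2 := padick_finite F K {x : Fin N → K | (∀ i ∈ τ, aeval x (P i) = 0) ∧
        aeval x (∏ i ∈ τᶜ, P i) ≠ 0} n hn
    rw [Set.ncard_eq_toFinset_card _ hfin2]
    congr 2
    ext x
    simp only [Set.Finite.mem_toFinset, Finset.mem_filter]
    constructor
    · rintro ⟨⟨h2, h3⟩, h4⟩
      rw [map_prod, Finset.prod_ne_zero_iff] at h3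
      have h5 : (Finset.univ.filter (fun i => aeval x (P i) = 0) : Finset ι) = τ := by
        ext i
        simp only [Finset.mem_filter, Finset.mem_univ, true_and]
        constructor
        · intro h6
          by_contra h7
          exact h3 i (Finset.mem_compl.2 h7) h6
        · exact h2 i
      refine ⟨⟨?_, h4⟩, h5⟩
      show {i | aeval x (P i) = 0} ∈ T
      have h6 : {i | aeval x (P i) = 0} = (τ : Set ι) := by
        rw [← h5]
        ext i
        simp
      rw [h6]
      exact hτ.2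
    · rintro ⟨⟨h2, h3⟩, rfl⟩
      refine ⟨⟨?_, ?_⟩, h3⟩
      · intro i hi
        exact (Finset.mem_filter.1 hi).2
      · rw [map_prod, Finset.prod_ne_zero_iff]
        intro i hi h6
        rw [Finset.mem_compl, Finset.mem_filter] at hi
        exact hi ⟨Finset.mem_univ i, h6⟩
  · intro x hx
    rw [Finset.mem_coe, Set.Finite.mem_toFinset] at hx
    rw [Finset.mem_coe, Finset.mem_filter]
    refine ⟨Finset.mem_univ _, ?_⟩
    have h6 : ((Finset.univ.filter (fun i => aeval x (P i) = 0) : Finset ι) : Set ι) =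
        {i | aeval x (P i) = 0} := by
      ext i
      simp
    rw [h6]
    exact hx.1

end Pool.Agent.Helper92.AH
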